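import Pool.Agent.MP_d7dd47_co.Defs

namespace Pool.Agent.MP_d7dd47_co

/-- `ESNumber r n` is the number `C(r,n)` of the problem file: the least `N` such that every set of
at least `N` points of `ℝ^n` in general position contains `r` convexly independent points. -/
noncomputable def ESNumber (r n : ℕ) : ℕ :=
  sInf {N : ℕ | ∀ X : Set (EuclideanSpace ℝ (Fin n)), GenPos X → (N : ℕ∞) ≤ X.encard →
    ∃ Y ⊆ X, Y.encard = r ∧ ConvIndep Y}

end Pool.Agent.MP_d7dd47_co
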